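import Mathlib

set_option autoImplicit false
set_option synthInstance.maxSize 4000

namespace Pool.Agent.Results.MP_6c2242_co.Example

abbrev G : Type := ZMod 4 × ZMod 2 × ZMod 2

def blk : Fin 20 → Finset G :=
  ![{(0, 0, 0), (0, 0, 1), (2, 0, 0), (2, 0, 1)},
   {(0, 0, 0), (0, 1, 0), (1, 0, 0), (3, 1, 0)},
   {(0, 0, 0), (0, 1, 1), (1, 1, 0), (3, 0, 1)},
   {(0, 0, 0), (1, 0, 1), (1, 1, 1), (2, 1, 0)},
   {(0, 0, 0), (2, 1, 1), (3, 0, 0), (3, 1, 1)},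
   {(0, 0, 1), (0, 1, 0), (1, 1, 1), (3, 0, 0)},
   {(0, 0, 1), (0, 1, 1), (1, 0, 1), (3, 1, 1)},
   {(0, 0, 1), (1, 0, 0), (1, 1, 0), (2, 1, 1)},
   {(0, 0, 1), (2, 1, 0), (3, 0, 1), (3, 1, 0)},
   {(0, 1, 0), (0, 1, 1), (2, 1, 0), (2, 1, 1)},
   {(0, 1, 0), (1, 0, 1), (1, 1, 0), (2, 0, 1)},
   {(0, 1, 0), (2, 0, 0), (3, 0, 1), (3, 1, 1)},
   {(0, 1, 1), (1, 0, 0), (1, 1, 1), (2, 0, 0)},
   {(0, 1, 1), (2, 0, 1), (3, 0, 0), (3, 1, 0)},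
   {(1, 0, 0), (1, 0, 1), (3, 0, 0), (3, 0, 1)},
   {(1, 0, 0), (2, 0, 1), (2, 1, 0), (3, 1, 1)},
   {(1, 0, 1), (2, 0, 0), (2, 1, 1), (3, 1, 0)},
   {(1, 1, 0), (1, 1, 1), (3, 1, 0), (3, 1, 1)},
   {(1, 1, 0), (2, 0, 0), (2, 1, 0), (3, 0, 0)},
   {(1, 1, 1), (2, 0, 1), (2, 1, 1), (3, 0, 1)}]

def blocks : Finset (Finset G) := Finset.univ.image blk

lemma d1 : ∀ t a : G, t + t = 0 → t ≠ 0 → t ≠ (2, 0, 0) → a ≠ 0 → a ≠ t →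
    -a ∈ ({0, t, a, a + t} : Finset G) → a + a = 0 := by decide +kernel

lemma d2 : ∀ t a : G, t + t = 0 → t ≠ 0 → a ≠ 0 → a ≠ t →
    ({0, t, a, a + t} : Finset G).card = 4 := by decide +kernel

lemma d3 : ∀ a : G, a + a = 0 → a ≠ 0 → a ≠ (0, 1, 0) → ∃ t : G, t + t = 0 ∧ t ≠ 0 ∧
    t ≠ (2, 0, 0) ∧ t ∉ ({0, (0, 1, 0), a, a + (0, 1, 0)} : Finset G) ∧
    ∀ b : G, b + b = 0 → b ≠ 0 → b ≠ t → ∃ z : G, z ≠ 0 ∧
      z ∈ ({0, (0, 1, 0), a, a + (0, 1, 0)} : Finset G) ∧ z ∈ ({0, t, b, b + t} : Finset G) := by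
  decide +kernel

lemma none_inv (C : Set (Finset G)) (hc : ∀ B ∈ C, B.card = 4)
    (hu : ∀ x y : G, x ≠ y → ∃! B, B ∈ C ∧ x ∈ B ∧ y ∈ B)
    (ht : ∀ B ∈ C, ∀ g : G, B.image (· + g) ∈ C) : False := by
  have key : ∀ t : G, t + t = 0 → t ≠ 0 → t ≠ (2, 0, 0) → ∃ a : G, a + a = 0 ∧ a ≠ 0 ∧ a ≠ t ∧
      ({0, t, a, a + t} : Finset G) ∈ C := by
    intro t h1 h2 h3
    obtain ⟨B, ⟨hB, h0, h4⟩, huniq⟩ := hu 0 t h2.symm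
    have e1 : B.image (· + t) = B := huniq _ ⟨ht B hB t,
      Finset.mem_image.2 ⟨t, h4, h1⟩, Finset.mem_image.2 ⟨0, h0, zero_add t⟩⟩
    obtain ⟨a, ha, ha2⟩ := Finset.exists_mem_notMem_of_card_lt_card (s := {0, t}) (t := B)
      (by rw [hc B hB]; exact lt_of_le_of_lt Finset.card_le_two (by norm_num))
    simp only [Finset.mem_insert, Finset.mem_singleton, not_or] at ha2
    have h5 : a + t ∈ B := e1 ▸ Finset.mem_image.2 ⟨a, ha, rfl⟩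
    have e2 : ({0, t, a, a + t} : Finset G) = B := by
      refine Finset.eq_of_subset_of_card_le ?_ (by rw [hc B hB, d2 t a h1 h2 ha2.1 ha2.2])
      intro x hx
      simp only [Finset.mem_insert, Finset.mem_singleton] at hx
      rcases hx with rfl | rfl | rfl | rfl <;> assumption
    have e3 : B.image (· + -a) = B := huniq _ ⟨ht B hB _,
      Finset.mem_image.2 ⟨a, ha, add_neg_cancel a⟩, Finset.mem_image.2 ⟨a + t, h5, by abel⟩⟩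
    have h6 : -a ∈ B := e3 ▸ Finset.mem_image.2 ⟨0, h0, zero_add _⟩
    exact ⟨a, d1 t a h1 h2 h3 ha2.1 ha2.2 (e2 ▸ h6), ha2.1, ha2.2, e2 ▸ hB⟩
  obtain ⟨a, a1, a2, a3, a4⟩ := key (0, 1, 0) (by decide) (by decide) (by decide)
  obtain ⟨t, t1, t2, t3, t4, t5⟩ := d3 a a1 a2 a3
  obtain ⟨b, b1, b2, b3, b4⟩ := key t t1 t2 t3
  obtain ⟨z, z1, z2, z3⟩ := t5 b b1 b2 b3
  have := (hu 0 z z1.symm).unique ⟨a4, by simp, z2⟩ ⟨b4, by simp, z3⟩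
  exact t4 (by rw [this]; simp)

lemma des : ∀ x y : G, x ≠ y → ∃ i, (x ∈ blk i ∧ y ∈ blk i) ∧
    ∀ j, x ∈ blk j → y ∈ blk j → j = i := by
  decide +kernel

lemma des' (x y : G) (h : x ≠ y) : ∃! B, B ∈ blocks ∧ x ∈ B ∧ y ∈ B := by
  obtain ⟨i, h1, h2⟩ := des x y h
  refine ⟨blk i, ⟨Finset.mem_image_of_mem _ (Finset.mem_univ _), h1⟩, ?_⟩
  rintro B ⟨h3, h4, h5⟩
  obtain ⟨j, -, rfl⟩ := Finset.mem_image.1 h3
  rw [h2 j h4 h5]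

lemma cs : ∀ i, (blk i).card = 4 ∧ ∑ b ∈ blk i, b = 0 := by decide +kernel

theorem result :
    ∃ (G : Type) (_ : AddCommGroup G) (_ : Fintype G) (_ : DecidableEq G) (k : ℕ)
      (D : Finset (Finset G)), 2 ≤ k ∧ k ≤ Fintype.card G ∧ (∀ B ∈ D, B.card = k) ∧
      (∀ x y : G, x ≠ y → ∃! B, B ∈ D ∧ x ∈ B ∧ y ∈ B) ∧
      (∀ B ∈ D, ∑ b ∈ B, b = 0) ∧
      ¬ ∃ f : G ≃ G, ∀ B ∈ D, ∀ g : G, ∃ B' ∈ D, B'.image f = (B.image f).image (· + g) := by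
  have hc : ∀ B ∈ blocks, B.card = 4 := fun B hB => by
    obtain ⟨j, -, rfl⟩ := Finset.mem_image.1 hB
    exact (cs j).1
  have hs : ∀ B ∈ blocks, ∑ b ∈ B, b = 0 := fun B hB => by
    obtain ⟨j, -, rfl⟩ := Finset.mem_image.1 hB
    exact (cs j).2
  refine ⟨G, inferInstance, inferInstance, inferInstance, 4, blocks, by norm_num, by decide,
    hc, des', hs, ?_⟩
  rintro ⟨f, hf⟩
  refine none_inv {C | ∃ B ∈ blocks, B.image f = C} ?_ ?_ ?_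
  · rintro _ ⟨B, hB, rfl⟩
    rw [Finset.card_image_of_injective _ f.injective, hc B hB]
  · intro x y h
    obtain ⟨B, ⟨h1, h2, h3⟩, hu⟩ := des' (f.symm x) (f.symm y) (f.symm.injective.ne h)
    refine ⟨B.image f, ⟨⟨B, h1, rfl⟩, Finset.mem_image.2 ⟨_, h2, by simp⟩,
      Finset.mem_image.2 ⟨_, h3, by simp⟩⟩, ?_⟩
    rintro _ ⟨⟨B', h4, rfl⟩, h5, h6⟩
    obtain ⟨u, hu1, rfl⟩ := Finset.mem_image.1 h5
    obtain ⟨v, hv1, rfl⟩ := Finset.mem_image.1 h6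
    rw [hu B' ⟨h4, by simpa using hu1, by simpa using hv1⟩]
  · rintro _ ⟨B, hB, rfl⟩ g
    exact hf B hB g

end Pool.Agent.Results.MP_6c2242_co.Example
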